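import Pool.Agent.Q86.SA.Stm

/-! Lemma job CONV of the project SA of helper86: linear algebra of the block decomposition. -/

set_option autoImplicit false

namespace Pool.Agent.Q151.SA

open Matrix Topology Pool.Agent.Q86.SA Filter

section gen

variable {G I : Type} [Group G] [Fintype I] [DecidableEq I] (R : G → Matrix I I ℂ)
  (p q : I → ℂ) (r s : Fin 3 → G)

/-- the columns `R (s j) p` -/
def EE : Matrix I (Fin 3) ℂ := Matrix.of fun i j => (R (s j) *ᵥ p) i

/-- the rows `q R (r i)` -/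
def LL : Matrix (Fin 3) I ℂ := Matrix.of fun i j => (q ᵥ* R (r i)) j

/-- the matrix of the `q R (r i w s j) p` -/
def YY (w : G) : Matrix (Fin 3) (Fin 3) ℂ := Matrix.of fun i j => q ⬝ᵥ (R (r i * w * s j) *ᵥ p)

/-- the matrix of the `q R (r i s j) p` -/
def XX : Matrix (Fin 3) (Fin 3) ℂ := Matrix.of fun i j => q ⬝ᵥ (R (r i * s j) *ᵥ p)

variable (hR : ∀ x y, R (x * y) = R x * R y)

theorem LME (M : Matrix I I ℂ) (i j : Fin 3) : (LL R q r * M * EE R p s) i j =
    q ⬝ᵥ ((R (r i) * M * R (s j)) *ᵥ p) := by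
  have h1 : (LL R q r * M * EE R p s) i j = ((q ᵥ* R (r i)) ᵥ* M) ⬝ᵥ (R (s j) *ᵥ p) := rfl
  rw [h1, ← Matrix.dotProduct_mulVec, ← Matrix.dotProduct_mulVec, Matrix.mulVec_mulVec,
    Matrix.mulVec_mulVec, Matrix.mul_assoc]

include hR in
theorem LRE (w : G) : LL R q r * R w * EE R p s = YY R p q r s w := by
  ext i j
  rw [LME, ← hR, ← hR]
  rfl

include hR in
theorem LE : LL R q r * EE R p s = XX R p q r s := by
  ext i j
  have h := LME R p q r s 1 i j
  rw [Matrix.mul_one, Matrix.mul_one, ← hR] at h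
  exact h

section split

variable (n : Matrix I (Fin 1) ℂ) (m : Matrix (Fin 1) I ℂ)
  (hX : (XX R p q r s).det ≠ 0)
  (h1 : LL R q r * n = 0) (h2 : m * EE R p s = 0) (h3 : m * n = 1)
  (h4 : EE R p s * (XX R p q r s)⁻¹ * LL R q r + n * m = 1)
  (τ : ℂ) (hτ : τ ≠ 0)

/-- the basis change -/
noncomputable def hh : Matrix (Fin 3 ⊕ Fin 1) I ℂ :=
  Matrix.fromRows ((XX R p q r s)⁻¹ * LL R q r) (τ⁻¹ • m)

/-- its inverse -/
noncomputable def hh' : Matrix I (Fin 3 ⊕ Fin 1) ℂ := Matrix.fromCols (EE R p s) (τ • n)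

include hR hX h1 h2 h3 hτ in
theorem hh_mul : hh R p q r s m τ * hh' R p s n τ = 1 := by
  unfold hh hh'
  rw [Matrix.fromRows_mul_fromCols, Matrix.mul_assoc, LE R p q r s hR,
    Matrix.nonsing_inv_mul _ (isUnit_iff_ne_zero.mpr hX), Matrix.mul_assoc, Matrix.mul_smul, h1,
    smul_zero, Matrix.mul_zero, Matrix.smul_mul, h2, smul_zero, Matrix.smul_mul, Matrix.mul_smul,
    smul_smul, inv_mul_cancel₀ hτ, one_smul, h3, Matrix.fromBlocks_one]

include h4 hτ in
theorem hh'_mul : hh' R p s n τ * hh R p q r s m τ = 1 := by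
  unfold hh hh'
  rw [Matrix.fromCols_mul_fromRows, Matrix.smul_mul, Matrix.mul_smul, smul_smul,
    mul_inv_cancel₀ hτ, one_smul, ← Matrix.mul_assoc, h4]

/-- the blocks -/
noncomputable def bA (w : G) : Matrix (Fin 3) (Fin 3) ℂ := (XX R p q r s)⁻¹ * YY R p q r s w
noncomputable def bB (w : G) : Matrix (Fin 3) (Fin 1) ℂ :=
  (XX R p q r s)⁻¹ * (LL R q r * R w * n)
noncomputable def bC (w : G) : Matrix (Fin 1) (Fin 3) ℂ := m * R w * EE R p s
noncomputable def bD (w : G) : Matrix (Fin 1) (Fin 1) ℂ := m * R w * n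

include hR hτ in
theorem conj_block (w : G) : hh R p q r s m τ * R w * hh' R p s n τ =
    Matrix.fromBlocks (bA R p q r s w) (τ • bB R p q r s n w) (τ⁻¹ • bC R p s m w)
      (bD R n m w) := by
  unfold hh hh' bA bB bC bD
  rw [Matrix.fromRows_mul, Matrix.fromRows_mul_fromCols, ← LRE R p q r s hR]
  congr 1
  · simp only [Matrix.mul_assoc]
  · simp only [Matrix.mul_assoc, Matrix.mul_smul]
  · simp only [Matrix.smul_mul]
  · simp only [Matrix.mul_assoc, Matrix.mul_smul, Matrix.smul_mul, smul_smul,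
      mul_inv_cancel₀ hτ, one_smul]

include hR h4 in
theorem mult_block (w w' : G) : bA R p q r s (w * w') =
    bA R p q r s w * bA R p q r s w' + bB R p q r s n w * bC R p s m w' := by
  have h5 : YY R p q r s (w * w') = LL R q r * R w *
      (EE R p s * (XX R p q r s)⁻¹ * LL R q r + n * m) * (R w' * EE R p s) := by
    rw [h4, Matrix.mul_one, ← LRE R p q r s hR, hR]
    simp only [Matrix.mul_assoc]
  unfold bA bB bC
  rw [h5, ← LRE R p q r s hR, ← LRE R p q r s hR]
  simp only [Matrix.mul_assoc, Matrix.mul_add, Matrix.add_mul]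

include hR h4 in
theorem trace_block (w : G) : (R w).trace = (bA R p q r s w).trace + bD R n m w 0 0 := by
  have h5 : (R w).trace = (R w * (EE R p s * (XX R p q r s)⁻¹ * LL R q r + n * m)).trace := by
    rw [h4, Matrix.mul_one]
  have h6 : bD R n m w 0 0 = (m * R w * n).trace := by
    rw [Matrix.trace_fin_one]
    rfl
  rw [h5, Matrix.mul_add, Matrix.trace_add, h6]
  unfold bA
  congr 1
  · rw [← LRE R p q r s hR]
    have e : R w * (EE R p s * (XX R p q r s)⁻¹ * LL R q r) =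
      (R w * EE R p s) * ((XX R p q r s)⁻¹ * LL R q r) := by
      simp only [Matrix.mul_assoc]
    rw [e, Matrix.trace_mul_comm]
    simp only [Matrix.mul_assoc]
  · rw [← Matrix.mul_assoc, Matrix.trace_mul_comm, ← Matrix.mul_assoc]

end split

end gen

/-- scaling -/
theorem exists_scale (b c η : ℝ) (hb : 0 ≤ b) (hc : 0 ≤ c) (hη : 0 < η) (h : b * c ≤ η ^ 2) :
    ∃ τ : ℝ, 0 < τ ∧ τ * b ≤ η ∧ τ⁻¹ * c ≤ η := by
  rcases hb.eq_or_lt with hb | hb
  · refine ⟨c / η + 1, by positivity, ?_, ?_⟩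
    · rw [← hb, mul_zero]
      exact hη.le
    · rw [inv_mul_le_iff₀ (by positivity), add_mul, div_mul_cancel₀ _ hη.ne', one_mul]
      linarith
  · refine ⟨η / b, by positivity, ?_, ?_⟩
    · rw [div_mul_cancel₀ _ hb.ne']
    · rw [inv_div, div_mul_eq_mul_div, div_le_iff₀ hη]
      nlinarith

end Pool.Agent.Q151.SA
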