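import Pool.Agent.Q151.SA.Lim

/-! Lemma job CONV of the project SA of helper86. -/

set_option autoImplicit false

namespace Pool.Agent.Q151.SA

open Matrix Topology Pool.Agent.Q86.SA Filter UpperHalfPlane
open scoped MatrixGroups

section ff

variable {Γ : Subgroup SL(2, ℝ)} (a : Γ) (r s : Fin 3 → Γ)

/-- `∑ c_i χ(w a^i)` -/
noncomputable def ff (w : Γ) (x : (Fin 4 → ℂ) × (Γ → ℂ)) : ℂ :=
  ∑ i : Fin 4, x.1 i * x.2 (w * a ^ (i : ℕ))

noncomputable def XF (x : (Fin 4 → ℂ) × (Γ → ℂ)) : Matrix (Fin 3) (Fin 3) ℂ :=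
  Matrix.of fun i j => ff a (r i * s j) x

noncomputable def YF (w : Γ) (x : (Fin 4 → ℂ) × (Γ → ℂ)) : Matrix (Fin 3) (Fin 3) ℂ :=
  Matrix.of fun i j => ff a (r i * w * s j) x

noncomputable def AF (w : Γ) (x : (Fin 4 → ℂ) × (Γ → ℂ)) : Matrix (Fin 3) (Fin 3) ℂ :=
  (XF a r s x)⁻¹ * YF a r s w x

theorem c_ff (w : Γ) : Continuous (ff a w) := by
  unfold ff
  refine continuous_finsetSum _ fun i _ => ?_
  exact ((continuous_apply i).comp continuous_fst).mul
    ((continuous_apply (w * a ^ (i : ℕ))).comp continuous_snd)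

theorem c_XF : Continuous (XF a r s) :=
  continuous_matrix fun _ _ => c_ff a _

theorem c_YF (w : Γ) : Continuous (YF a r s w) :=
  continuous_matrix fun _ _ => c_ff a _

theorem c_AF (w : Γ) (x : (Fin 4 → ℂ) × (Γ → ℂ)) (hx : (XF a r s x).det ≠ 0) :
    ContinuousAt (AF a r s w) x := by
  have h1 : ContinuousAt (fun y => (XF a r s y)⁻¹) x := by
    have h2 : ContinuousAt Inv.inv (XF a r s x) := by
      apply continuousAt_matrix_inv
      rw [Ring.inverse_eq_inv']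
      exact continuousAt_inv₀ hx
    exact h2.comp (c_XF a r s).continuousAt
  exact h1.mul (c_YF a r s w).continuousAt

theorem c_AF' (w : Γ) (x : (Fin 4 → ℂ) × (Γ → ℂ)) (hx : (XF a r s x).det ≠ 0) (i j : Fin 3) :
    ContinuousAt (fun y => AF a r s w y i j) x := by
  have hc : Continuous (fun M : Matrix (Fin 3) (Fin 3) ℂ => M i j) :=
    continuous_id.matrix_elem i j
  exact hc.continuousAt.comp (c_AF a r s w x hx)

/-! ### connection with representations -/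

variable {I : Type} [Fintype I] [DecidableEq I] (R : Γ → Matrix I I ℂ) (p q : I → ℂ)
  (hR : ∀ x y, R (x * y) = R x * R y) (hR1 : R 1 = 1) (χ : Γ → ℂ)
  (ht : ∀ w, (R w).trace = χ w) (c : Fin 4 → ℂ)
  (hc : Matrix.vecMulVec p q = ∑ i : Fin 4, c i • R a ^ (i : ℕ))

include hR hR1 in
theorem R_pow (k : ℕ) : R (a ^ k) = R a ^ k := by
  induction k with
  | zero => rw [pow_zero, pow_zero, hR1]
  | succ k ih => rw [pow_succ, hR, ih, pow_succ]

include hR hR1 ht hc in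
theorem dot_eq (w : Γ) : q ⬝ᵥ (R w *ᵥ p) = ff a w (c, χ) := by
  have h1 : q ⬝ᵥ (R w *ᵥ p) = (R w * Matrix.vecMulVec p q).trace := by
    rw [Matrix.mul_vecMulVec, Matrix.trace_vecMulVec, dotProduct_comm]
  rw [h1, hc, Matrix.mul_sum, Matrix.trace_sum]
  unfold ff
  refine Finset.sum_congr rfl fun i _ => ?_
  rw [Matrix.mul_smul, Matrix.trace_smul, smul_eq_mul, ← R_pow a R hR hR1, ← hR, ht]

include hR hR1 ht hc in
theorem XX_eq : XX R p q r s = XF a r s (c, χ) := by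
  ext i j
  exact dot_eq a R p q hR hR1 χ ht c hc (r i * s j)

include hR hR1 ht hc in
theorem YY_eq (w : Γ) : YY R p q r s w = YF a r s w (c, χ) := by
  ext i j
  exact dot_eq a R p q hR hR1 χ ht c hc (r i * w * s j)

include hR hR1 ht hc in
theorem bA_eq (w : Γ) : bA R p q r s w = AF a r s w (c, χ) := by
  unfold bA AF
  rw [XX_eq a r s R p q hR hR1 χ ht c hc, YY_eq a r s R p q hR hR1 χ ht c hc]

end ff

/-! ### the limit -/

section lim

variable {Γ : Subgroup SL(2, ℝ)} (a : Γ) (g : SL(2, ℝ)) (ℓ : ℝ) (hℓ : 0 < ℓ)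
  (hag : a.1 * g = g * flow ℓ ∨ a.1 * g = -(g * flow ℓ))

theorem kk_inv (g : SL(2, ℝ)) : kk g * kk g⁻¹ = 1 := by
  rw [← kk_mul, mul_inv_cancel, kk_one]

theorem kk_inv' (g : SL(2, ℝ)) : kk g⁻¹ * kk g = 1 := by
  rw [← kk_mul, inv_mul_cancel, kk_one]

include hag in
theorem kk_a : kk a.1 = kk g * kk (flow ℓ) * kk g⁻¹ := by
  have h1 : kk a.1 * kk g = kk g * kk (flow ℓ) := by
    rw [← kk_mul, ← kk_mul]
    rcases hag with h | h
    · rw [h]
    · rw [h, kk_neg]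
  rw [← h1, Matrix.mul_assoc, kk_inv, Matrix.mul_one]

include hag in
theorem kk_a_pow (k : ℕ) : kk a.1 ^ k = kk g * kk (flow ℓ) ^ k * kk g⁻¹ := by
  induction k with
  | zero => rw [pow_zero, pow_zero, Matrix.mul_one, kk_inv]
  | succ k ih =>
    rw [pow_succ, ih, kk_a a g ℓ hag, pow_succ]
    have e : kk g * kk (flow ℓ) ^ k * kk g⁻¹ * (kk g * kk (flow ℓ) * kk g⁻¹) =
      kk g * kk (flow ℓ) ^ k * (kk g⁻¹ * kk g) * (kk (flow ℓ) * kk g⁻¹) := by
      simp only [Matrix.mul_assoc]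
    rw [e, kk_inv', Matrix.mul_one]
    simp only [Matrix.mul_assoc]

include hag hℓ in
theorem proj_a : Matrix.vecMulVec (kk g *ᵥ e00) (e00 ᵥ* kk g⁻¹) =
    ∑ i : Fin 4, ((c0 (Real.exp (ℓ / 2)) i : ℝ) : ℂ) • kk a.1 ^ (i : ℕ) := by
  rw [← Matrix.vecMulVec_mul, ← Matrix.mul_vecMulVec, ← proj_flow ℓ hℓ, Matrix.mul_sum,
    Matrix.sum_mul]
  refine Finset.sum_congr rfl fun i _ => ?_
  rw [kk_a_pow a g ℓ hag, Matrix.mul_smul, Matrix.smul_mul]

theorem trace_flow_pow (ℓ : ℝ) (k : ℕ) : (kk (flow ℓ) ^ k).trace =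
    (((Real.exp (ℓ / 2) ^ k + (Real.exp (ℓ / 2))⁻¹ ^ k) ^ 2 : ℝ) : ℂ) := by
  rw [kk_flow, Matrix.diagonal_pow, Matrix.trace_diagonal, Fintype.sum_prod_type]
  simp only [Fin.sum_univ_two, Pi.pow_apply, Real.exp_neg]
  push_cast
  simp only [mul_pow]
  ring

include hag in
theorem chi0_pow (k : ℕ) : chi0 Γ (a ^ k) =
    (((Real.exp (ℓ / 2) ^ k + (Real.exp (ℓ / 2))⁻¹ ^ k) ^ 2 : ℝ) : ℂ) := by
  have h1 : chi0 Γ (a ^ k) = (kk a.1 ^ k).trace := by
    have h2 : kk (a.1 ^ k) = kk a.1 ^ k := by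
      induction k with
      | zero => rw [pow_zero, pow_zero, kk_one]
      | succ k ih => rw [pow_succ, kk_mul, ih, pow_succ]
    rw [← h2, trace_kk]
    rfl
  rw [h1, kk_a_pow a g ℓ hag, Matrix.trace_mul_comm, ← Matrix.mul_assoc, kk_inv', Matrix.one_mul,
    trace_flow_pow]

/-- the point -/
noncomputable def x0 (Γ : Subgroup SL(2, ℝ)) (ℓ : ℝ) : (Fin 4 → ℂ) × (Γ → ℂ) :=
  (fun i => ((c0 (Real.exp (ℓ / 2)) i : ℝ) : ℂ), chi0 Γ)

theorem dot_e00 (w g : SL(2, ℝ)) : (e00 ᵥ* kk g⁻¹) ⬝ᵥ (kk w *ᵥ (kk g *ᵥ e00)) =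
    ((((g⁻¹ * w * g).1 0 0) ^ 2 : ℝ) : ℂ) := by
  rw [Matrix.mulVec_mulVec, ← Matrix.dotProduct_mulVec, Matrix.mulVec_mulVec, ← kk_mul, ← kk_mul,
    ← mul_assoc]
  unfold e00
  rw [Matrix.mulVec_single_one, single_dotProduct, one_mul, Matrix.col_apply]
  unfold kk
  push_cast
  ring

variable (r s : Fin 3 → Γ) (hdet : Matrix.det (Matrix.of fun i j : Fin 3 =>
      ((g⁻¹ * ((r i).1 * (s j).1) * g).1 0 0) ^ 2) ≠ 0)

include hℓ hag in
theorem ff_x0 (w : Γ) : ff a w (x0 Γ ℓ) = ((((g⁻¹ * w.1 * g).1 0 0) ^ 2 : ℝ) : ℂ) := by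
  rw [← dot_e00]
  exact (dot_eq a (fun w : Γ => kk w.1) (kk g *ᵥ e00) (e00 ᵥ* kk g⁻¹)
    (fun x y => kk_mul x.1 y.1) kk_one (chi0 Γ) (fun w => trace_kk w.1) _
    (proj_a a g ℓ hℓ hag) w).symm

include hℓ hag hdet in
theorem det_x0 : (XF a r s (x0 Γ ℓ)).det ≠ 0 := by
  have h1 : XF a r s (x0 Γ ℓ) = (Matrix.of fun i j : Fin 3 =>
      ((g⁻¹ * ((r i).1 * (s j).1) * g).1 0 0) ^ 2).map (Complex.ofRealHom) := by
    ext i j
    exact ff_x0 a g ℓ hℓ hag (r i * s j)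
  rw [h1]
  have h2 := RingHom.map_det Complex.ofRealHom (Matrix.of fun i j : Fin 3 =>
      ((g⁻¹ * ((r i).1 * (s j).1) * g).1 0 0) ^ 2)
  rw [RingHom.mapMatrix_apply] at h2
  rw [← h2]
  intro h3
  exact hdet (Complex.ofReal_eq_zero.mp h3)

include hℓ hag hdet in
/-- the limit representation in block form -/
theorem lim_block : ∃ (P : Matrix (Fin 2 × Fin 2) (Fin 3 ⊕ Fin 1) ℂ)
    (Q : Matrix (Fin 3 ⊕ Fin 1) (Fin 2 × Fin 2) ℂ), P * Q = 1 ∧ Q * P = 1 ∧
    (∀ w : Γ, Q * kk w.1 * P = Matrix.fromBlocks (AF a r s w (x0 Γ ℓ)) 0 0 1) ∧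
    (∀ w w' : Γ, AF a r s (w * w') (x0 Γ ℓ) = AF a r s w (x0 Γ ℓ) * AF a r s w' (x0 Γ ℓ)) ∧
    ∀ w : Γ, chi0 Γ w = (AF a r s w (x0 Γ ℓ)).trace + 1 := by
  set R : Γ → Matrix (Fin 2 × Fin 2) (Fin 2 × Fin 2) ℂ := fun w => kk w.1 with hRdef
  have hR : ∀ x y, R (x * y) = R x * R y := fun x y => kk_mul x.1 y.1
  have hR1 : R 1 = 1 := kk_one
  set p := kk g *ᵥ e00 with hp
  set q := e00 ᵥ* kk g⁻¹ with hq
  have hX : XX R p q r s = XF a r s (x0 Γ ℓ) :=
    XX_eq a r s R p q hR hR1 (chi0 Γ) (fun w => trace_kk w.1) _ (proj_a a g ℓ hℓ hag)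
  have hA : ∀ w, bA R p q r s w = AF a r s w (x0 Γ ℓ) := fun w =>
    bA_eq a r s R p q hR hR1 (chi0 Γ) (fun w => trace_kk w.1) _ (proj_a a g ℓ hℓ hag) w
  have hd : (XX R p q r s).det ≠ 0 := by
    rw [hX]
    exact det_x0 a g ℓ hℓ hag r s hdet
  have k1 : LL R q r * n0 = 0 := by
    ext i j
    have h1 : (LL R q r * n0) i j = (q ᵥ* kk (r i).1) ⬝ᵥ nv := rfl
    rw [h1, ← Matrix.dotProduct_mulVec, kk_nv, hq, ← Matrix.dotProduct_mulVec, kk_nv]
    unfold e00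
    rw [single_dotProduct]
    simp [nv]
  have k2 : m0 * EE R p s = 0 := by
    ext i j
    have h1 : (m0 * EE R p s) i j = (2 : ℂ)⁻¹ * (nv ⬝ᵥ (kk (s j).1 *ᵥ p)) := by
      rw [Matrix.mul_apply]
      unfold dotProduct
      rw [Finset.mul_sum]
      refine Finset.sum_congr rfl fun k _ => ?_
      unfold m0 EE
      rw [Matrix.of_apply, Matrix.of_apply]
      ring
    rw [h1, Matrix.dotProduct_mulVec, nv_kk, hp, Matrix.dotProduct_mulVec, nv_kk]
    unfold e00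
    rw [dotProduct_single]
    simp [nv]
  have k3 : hh R p q r s m0 1 * hh' R p s n0 1 = 1 :=
    hh_mul R p q r s hR n0 m0 hd k1 k2 m0_n0 1 one_ne_zero
  have k4 : hh' R p s n0 1 * hh R p q r s m0 1 = 1 :=
    (Matrix.mul_eq_one_comm_of_card_eq _ _ _ (by simp)).mp k3
  have k5 : EE R p s * (XX R p q r s)⁻¹ * LL R q r + n0 * m0 = 1 := by
    have h1 := k4
    unfold hh hh' at h1
    rw [Matrix.fromCols_mul_fromRows, inv_one, one_smul, one_smul, ← Matrix.mul_assoc] at h1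
    exact h1
  have k6 : ∀ w, bB R p q r s n0 w = 0 := by
    intro w
    unfold bB
    have : R w * n0 = n0 := kk_n0 w.1
    rw [Matrix.mul_assoc (LL R q r), this, k1, Matrix.mul_zero]
  have k7 : ∀ w, bC R p s m0 w = 0 := by
    intro w
    unfold bC
    have : m0 * R w = m0 := m0_kk w.1
    rw [this, k2]
  have k8 : ∀ w, bD R n0 m0 w = 1 := by
    intro w
    unfold bD
    have : m0 * R w = m0 := m0_kk w.1
    rw [this, m0_n0]
  refine ⟨hh' R p s n0 1, hh R p q r s m0 1, k4, k3, ?_, ?_, ?_⟩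
  · intro w
    have h1 := conj_block R p q r s hR n0 m0 1 one_ne_zero w
    rw [k6, k7, k8, smul_zero, smul_zero, hA] at h1
    exact h1
  · intro w w'
    have h1 := mult_block R p q r s hR n0 m0 k5 w w'
    rw [k6, Matrix.zero_mul, add_zero, hA, hA, hA] at h1
    exact h1
  · intro w
    have h1 := trace_block R p q r s hR n0 m0 k5 w
    rw [k8, hA, Matrix.one_apply_eq] at h1
    rw [← h1]
    exact (trace_kk w.1).symm

end lim

/-! ### estimates -/

theorem entry_bound {I J : Type} [Fintype I] [Fintype J] (P : Matrix I J ℂ) (Q : Matrix J I ℂ) :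
    ∃ K : ℝ, 0 < K ∧ ∀ (D : Matrix J J ℂ) (η : ℝ), 0 ≤ η → (∀ k l, ‖D k l‖ ≤ η) →
      ∀ i j, ‖(P * D * Q) i j‖ ≤ K * η := by
  refine ⟨(∑ i, ∑ j, ∑ l, ∑ k, ‖P i k‖ * ‖Q l j‖) + 1, ?_, ?_⟩
  · have : 0 ≤ ∑ i, ∑ j, ∑ l, ∑ k, ‖P i k‖ * ‖Q l j‖ := by positivity
    linarith
  · intro D η hη hD i j
    have h1 : ‖(P * D * Q) i j‖ ≤ ∑ l, ∑ k, ‖P i k‖ * ‖Q l j‖ * η := by
      rw [Matrix.mul_apply]
      refine (norm_sum_le _ _).trans (Finset.sum_le_sum fun l _ => ?_)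
      rw [norm_mul, Matrix.mul_apply]
      calc ‖∑ k, P i k * D k l‖ * ‖Q l j‖ ≤ (∑ k, ‖P i k * D k l‖) * ‖Q l j‖ :=
            mul_le_mul_of_nonneg_right (norm_sum_le _ _) (norm_nonneg _)
        _ = ∑ k, ‖P i k * D k l‖ * ‖Q l j‖ := by rw [Finset.sum_mul]
        _ ≤ ∑ k, ‖P i k‖ * ‖Q l j‖ * η := by
            refine Finset.sum_le_sum fun k _ => ?_
            rw [norm_mul]
            have := hD k l
            have h2 : 0 ≤ ‖P i k‖ * ‖Q l j‖ := by positivity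
            nlinarith
    have h2 : ∑ l, ∑ k, ‖P i k‖ * ‖Q l j‖ * η = (∑ l, ∑ k, ‖P i k‖ * ‖Q l j‖) * η := by
      rw [Finset.sum_mul]
      refine Finset.sum_congr rfl fun l _ => ?_
      rw [Finset.sum_mul]
    have h3 : ∑ l, ∑ k, ‖P i k‖ * ‖Q l j‖ ≤ ∑ i, ∑ j, ∑ l, ∑ k, ‖P i k‖ * ‖Q l j‖ := by
      have h4 : ∑ l, ∑ k, ‖P i k‖ * ‖Q l j‖ ≤ ∑ j, ∑ l, ∑ k, ‖P i k‖ * ‖Q l j‖ :=
        Finset.single_le_sum (f := fun j => ∑ l, ∑ k, ‖P i k‖ * ‖Q l j‖)
          (fun _ _ => by positivity) (Finset.mem_univ j)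
      exact h4.trans (Finset.single_le_sum (f := fun i => ∑ j, ∑ l, ∑ k, ‖P i k‖ * ‖Q l j‖)
          (fun _ _ => by positivity) (Finset.mem_univ i))
    calc ‖(P * D * Q) i j‖ ≤ (∑ l, ∑ k, ‖P i k‖ * ‖Q l j‖) * η := h1.trans h2.le
      _ ≤ ((∑ i, ∑ j, ∑ l, ∑ k, ‖P i k‖ * ‖Q l j‖) + 1) * η :=
          mul_le_mul_of_nonneg_right (by linarith) hη

theorem ev_le {X : Type} [TopologicalSpace X] (f : X → ℂ) (x : X) (v : ℂ) (hf : ContinuousAt f x)
    (hv : f x = v) (η : ℝ) (hη : 0 < η) : ∀ᶠ y in 𝓝 x, ‖f y - v‖ ≤ η := by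
  rw [Metric.continuousAt_iff'] at hf
  filter_upwards [hf η hη] with y hy
  rw [dist_eq_norm, hv] at hy
  exact hy.le

theorem conv (h1 : S_PTS) (h2 : S_PROJ) (h3 : S_BLK) : S_CONV := by
  intro Γ hΓ B ε hε
  obtain ⟨a, g, ℓ, hℓ, hag, r, s, hdet⟩ := h1 Γ hΓ
  have hl : 1 < Real.exp (ℓ / 2) := by
    rw [Real.one_lt_exp_iff]
    positivity
  obtain ⟨P, Q, hPQ, hQP, hblk, hmul, htr⟩ := lim_block a g ℓ hℓ hag r s hdet
  have hd0 := det_x0 a g ℓ hℓ hag r s hdet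
  obtain ⟨K, hK, hbound⟩ := entry_bound P Q
  obtain ⟨η, hηdef⟩ : ∃ η, η = ε / K := ⟨_, rfl⟩
  have hη : 0 < η := by rw [hηdef]; positivity
  obtain ⟨ζ, hζdef⟩ : ∃ ζ, ζ = η ^ 2 / ((3 * (B.card : ℝ)) ^ 2 + 1) := ⟨_, rfl⟩
  have hζ : 0 < ζ := by rw [hζdef]; positivity
  -- the good neighbourhood
  have ev : ∀ᶠ x in 𝓝 (x0 Γ ℓ), (XF a r s x).det ≠ 0 ∧
      (∀ w ∈ B, ∀ i j, ‖AF a r s w x i j - AF a r s w (x0 Γ ℓ) i j‖ ≤ η) ∧
      (∀ w ∈ B, ‖(x.2 w - (AF a r s w x).trace) - 1‖ ≤ η) ∧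
      (∀ w ∈ B, ∀ w' ∈ B, ∀ i j,
        ‖(AF a r s (w * w') x i j - (AF a r s w x * AF a r s w' x) i j) - 0‖ ≤ ζ) := by
    refine ((c_XF a r s).matrix_det.continuousAt.eventually_ne hd0).and
      (Filter.Eventually.and ?_ (Filter.Eventually.and ?_ ?_))
    · rw [Filter.eventually_all_finset]
      intro w _
      rw [Filter.eventually_all]
      intro i
      rw [Filter.eventually_all]
      intro j
      exact ev_le _ _ _ (c_AF' a r s w _ hd0 i j) rfl η hη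
    · rw [Filter.eventually_all_finset]
      intro w _
      refine ev_le (fun x : (Fin 4 → ℂ) × (Γ → ℂ) => x.2 w - (AF a r s w x).trace) _ _ ?_ ?_ η hη
      · refine ContinuousAt.sub ((continuous_apply w).comp continuous_snd).continuousAt ?_
        unfold Matrix.trace
        exact tendsto_finsetSum _ fun i _ => c_AF' a r s w _ hd0 i i
      · show chi0 Γ w - (AF a r s w (x0 Γ ℓ)).trace = 1
        rw [htr w]
        ring
    · rw [Filter.eventually_all_finset]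
      intro w _
      rw [Filter.eventually_all_finset]
      intro w' _
      rw [Filter.eventually_all]
      intro i
      rw [Filter.eventually_all]
      intro j
      refine ev_le (fun x : (Fin 4 → ℂ) × (Γ → ℂ) =>
        AF a r s (w * w') x i j - (AF a r s w x * AF a r s w' x) i j) _ _ ?_ ?_ ζ hζ
      · refine ContinuousAt.sub (c_AF' a r s (w * w') _ hd0 i j) ?_
        have hc : Continuous (fun M : Matrix (Fin 3) (Fin 3) ℂ => M i j) :=
          continuous_id.matrix_elem i j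
        exact hc.continuousAt.comp ((c_AF a r s w _ hd0).mul (c_AF a r s w' _ hd0))
      · show AF a r s (w * w') (x0 Γ ℓ) i j -
          (AF a r s w (x0 Γ ℓ) * AF a r s w' (x0 Γ ℓ)) i j = 0
        rw [hmul w w', sub_self]
  unfold x0 at ev
  rw [nhds_prod_eq, Filter.eventually_prod_iff] at ev
  obtain ⟨pa, hpa, pb, hpb, hall⟩ := ev
  rw [Metric.eventually_nhds_iff] at hpa
  obtain ⟨ε1, hε1, hpa⟩ := hpa
  obtain ⟨δ, hδ, hproj⟩ := h2 (Real.exp (ℓ / 2)) hl (ε1 / 2) (by positivity)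
  have hU2 : ∀ᶠ χ in 𝓝 (chi0 Γ), ∀ k ∈ Finset.Icc 1 4, ‖χ (a ^ k) - chi0 Γ (a ^ k)‖ ≤ δ := by
    rw [Filter.eventually_all_finset]
    intro k _
    exact ev_le (fun χ : Γ → ℂ => χ (a ^ k)) _ _ (continuous_apply (a ^ k)).continuousAt rfl δ hδ
  refine ⟨{χ | pb χ ∧ ∀ k ∈ Finset.Icc 1 4, ‖χ (a ^ k) - chi0 Γ (a ^ k)‖ ≤ δ}, hpb.and hU2,
    fun ρ hρ => ?_⟩
  obtain ⟨p, q, c, hqp, hvec, hc⟩ := hproj (ρ a).1 (by
    intro k hk
    have h4 := hρ.2 k hk
    rw [chi0_pow a g ℓ hag] at h4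
    have h5 : character ρ (a ^ k) = ((ρ a).1 ^ k).trace := by
      unfold character
      rw [map_pow, Matrix.SpecialLinearGroup.coe_pow]
    rw [h5] at h4
    exact h4)
  have hgood := hall (x := c) (hpa (by
    have : dist c (fun i => ((c0 (Real.exp (ℓ / 2)) i : ℝ) : ℂ)) ≤ ε1 / 2 := by
      rw [dist_pi_le_iff (by positivity)]
      intro i
      rw [dist_eq_norm]
      exact hc i
    linarith)) hρ.1
  obtain ⟨g1, g2, g3, g4⟩ := hgood
  -- the block form of `ρ`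
  set R : Γ → Matrix (Fin 4) (Fin 4) ℂ := fun w => (ρ w).1 with hRdef
  have hR : ∀ x y, R (x * y) = R x * R y := by
    intro x y
    show (ρ (x * y)).1 = (ρ x).1 * (ρ y).1
    rw [map_mul, Matrix.SpecialLinearGroup.coe_mul]
  have hR1 : R 1 = 1 := by
    show (ρ 1).1 = 1
    rw [map_one, Matrix.SpecialLinearGroup.coe_one]
  have hX : XX R p q r s = XF a r s (c, character ρ) :=
    XX_eq a r s R p q hR hR1 (character ρ) (fun w => rfl) c hvec
  have hA : ∀ w, bA R p q r s w = AF a r s w (c, character ρ) := fun w =>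
    bA_eq a r s R p q hR hR1 (character ρ) (fun w => rfl) c hvec w
  have hd : (XX R p q r s).det ≠ 0 := by
    rw [hX]
    exact g1
  obtain ⟨n, m, k1, k2, k3, k4⟩ := h3 (LL R q r) (EE R p s) (by rw [LE R p q r s hR]; exact hd)
  rw [LE R p q r s hR] at k4
  -- the products of the off diagonal blocks
  have hbc : ∀ w ∈ B, ∀ w' ∈ B, ∀ i j, ‖bB R p q r s n w i 0‖ * ‖bC R p s m w' 0 j‖ ≤ ζ := by
    intro w hw w' hw' i j
    have h5 := g4 w hw w' hw' i j
    rw [← hA, ← hA, ← hA, mult_block R p q r s hR n m k4 w w', sub_zero, Matrix.add_apply,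
      add_sub_cancel_left, Matrix.mul_apply, Fin.sum_univ_one, norm_mul] at h5
    exact h5
  obtain ⟨b, hb⟩ : ∃ b, b = ∑ w ∈ B, ∑ i, ‖bB R p q r s n w i 0‖ := ⟨_, rfl⟩
  obtain ⟨d, hd'⟩ : ∃ d, d = ∑ w ∈ B, ∑ j, ‖bC R p s m w 0 j‖ := ⟨_, rfl⟩
  have hb0 : 0 ≤ b := by rw [hb]; positivity
  have hd0' : 0 ≤ d := by rw [hd']; positivity
  have hbd : b * d ≤ η ^ 2 := by
    have h5 : b * d ≤ ∑ w ∈ B, ∑ i : Fin 3, ∑ w' ∈ B, ∑ j : Fin 3, ζ := by
      rw [hb, hd', Finset.sum_mul]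
      refine Finset.sum_le_sum fun w hw => ?_
      rw [Finset.sum_mul]
      refine Finset.sum_le_sum fun i _ => ?_
      rw [Finset.mul_sum]
      refine Finset.sum_le_sum fun w' hw' => ?_
      rw [Finset.mul_sum]
      refine Finset.sum_le_sum fun j _ => ?_
      exact hbc w hw w' hw' i j
    simp only [Finset.sum_const, Finset.card_univ, Fintype.card_fin, nsmul_eq_mul] at h5
    push_cast at h5
    have h6 : (B.card : ℝ) * (3 * ((B.card : ℝ) * (3 * ζ))) = (3 * (B.card : ℝ)) ^ 2 * ζ := by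
      ring
    rw [h6] at h5
    have h7 : ((3 * (B.card : ℝ)) ^ 2 + 1) * ζ = η ^ 2 := by
      rw [hζdef]
      field_simp
    nlinarith
  obtain ⟨τ, hτ, ht1, ht2⟩ := exists_scale b d η hb0 hd0' hη hbd
  have hτ' : (τ : ℂ) ≠ 0 := by
    rw [Ne, Complex.ofReal_eq_zero]
    exact hτ.ne'
  refine ⟨P * hh R p q r s m τ, hh' R p s n τ * Q, ?_, ?_, ?_⟩
  · have e : P * hh R p q r s m τ * (hh' R p s n τ * Q) =
        P * (hh R p q r s m τ * hh' R p s n τ) * Q := by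
      simp only [Matrix.mul_assoc]
    rw [e, hh_mul R p q r s hR n m hd k1 k2 k3 τ hτ', Matrix.mul_one, hPQ]
  · have e : hh' R p s n τ * Q * (P * hh R p q r s m τ) =
        hh' R p s n τ * (Q * P) * hh R p q r s m τ := by
      simp only [Matrix.mul_assoc]
    rw [e, hQP, Matrix.mul_one, hh'_mul R p q r s n m k4 τ hτ']
  · intro w hw i j
    have e1 : P * hh R p q r s m τ * (ρ w).1 * (hh' R p s n τ * Q) =
        P * (hh R p q r s m τ * R w * hh' R p s n τ) * Q := by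
      simp only [Matrix.mul_assoc, hRdef]
    have e2 : kk w.1 = P * (Q * kk w.1 * P) * Q := by
      have e3 : P * (Q * kk w.1 * P) * Q = (P * Q) * kk w.1 * (P * Q) := by
        simp only [Matrix.mul_assoc]
      rw [e3, hPQ, Matrix.one_mul, Matrix.mul_one]
    rw [e1, e2, ← Matrix.sub_mul, ← Matrix.mul_sub, conj_block R p q r s hR n m τ hτ' w, hblk w]
    have h8 : K * η = ε := by
      rw [hηdef]
      field_simp
    rw [← h8]
    refine hbound _ η hη.le ?_ i j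
    intro k l
    rcases k with k | k
    · rcases l with l | l
      · rw [Matrix.sub_apply, Matrix.fromBlocks_apply₁₁, Matrix.fromBlocks_apply₁₁, hA]
        exact g2 w hw k l
      · rw [Matrix.sub_apply, Matrix.fromBlocks_apply₁₂, Matrix.fromBlocks_apply₁₂,
          Matrix.zero_apply, sub_zero, Matrix.smul_apply, smul_eq_mul, norm_mul,
          Complex.norm_real, Real.norm_of_nonneg hτ.le]
        refine le_trans (mul_le_mul_of_nonneg_left ?_ hτ.le) ht1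
        rw [hb]
        have hl0 : l = 0 := Subsingleton.elim _ _
        subst hl0
        have h9 : ‖bB R p q r s n w k 0‖ ≤ ∑ i, ‖bB R p q r s n w i 0‖ :=
          Finset.single_le_sum (f := fun i => ‖bB R p q r s n w i 0‖)
            (fun _ _ => norm_nonneg _) (Finset.mem_univ k)
        exact h9.trans (Finset.single_le_sum (f := fun w => ∑ i, ‖bB R p q r s n w i 0‖)
          (fun _ _ => by positivity) hw)
    · have hk0 : k = 0 := Subsingleton.elim _ _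
      subst hk0
      rcases l with l | l
      · rw [Matrix.sub_apply, Matrix.fromBlocks_apply₂₁, Matrix.fromBlocks_apply₂₁,
          Matrix.zero_apply, sub_zero, Matrix.smul_apply, smul_eq_mul, norm_mul, norm_inv,
          Complex.norm_real, Real.norm_of_nonneg hτ.le]
        refine le_trans (mul_le_mul_of_nonneg_left ?_ (inv_nonneg.mpr hτ.le)) ht2
        rw [hd']
        have h9 : ‖bC R p s m w 0 l‖ ≤ ∑ j, ‖bC R p s m w 0 j‖ :=
          Finset.single_le_sum (f := fun j => ‖bC R p s m w 0 j‖)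
            (fun _ _ => norm_nonneg _) (Finset.mem_univ l)
        exact h9.trans (Finset.single_le_sum (f := fun w => ∑ j, ‖bC R p s m w 0 j‖)
          (fun _ _ => by positivity) hw)
      · have hl0 : l = 0 := Subsingleton.elim _ _
        subst hl0
        rw [Matrix.sub_apply, Matrix.fromBlocks_apply₂₂, Matrix.fromBlocks_apply₂₂,
          Matrix.one_apply_eq]
        have h9 := g3 w hw
        have h10 := trace_block R p q r s hR n m k4 w
        have h11 : bD R n m w 0 0 = character ρ w - (AF a r s w (c, character ρ)).trace := by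
          rw [← hA]
          have : (R w).trace = character ρ w := rfl
          rw [← this, h10]
          ring
        rw [h11]
        exact h9

end Pool.Agent.Q151.SA
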