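import Pool.Agent.Q151.SA.Blk

/-! Lemma job CONV of the project SA of helper86: the limit representation `γ ↦ γ ⊗ γ`. -/

set_option autoImplicit false

namespace Pool.Agent.Q151.SA

open Matrix Topology Pool.Agent.Q86.SA Filter UpperHalfPlane
open scoped MatrixGroups

theorem kk_mul (g h : SL(2, ℝ)) : kk (g * h) = kk g * kk h := by
  ext i j
  rw [Matrix.mul_apply, Fintype.sum_prod_type]
  simp only [Fin.sum_univ_two]
  unfold kk
  rw [Matrix.SpecialLinearGroup.coe_mul, Matrix.mul_apply, Matrix.mul_apply, Fin.sum_univ_two,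
    Fin.sum_univ_two]
  push_cast
  ring

theorem kk_one : kk 1 = 1 := by
  ext i j
  unfold kk
  rw [Matrix.SpecialLinearGroup.coe_one, Matrix.one_apply, Matrix.one_apply, Matrix.one_apply]
  by_cases h1 : i.1 = j.1
  · by_cases h2 : i.2 = j.2
    · rw [if_pos h1, if_pos h2, if_pos (Prod.ext h1 h2)]
      simp
    · have h3 : i ≠ j := fun h => h2 (by rw [h])
      rw [if_neg h2, if_neg h3]
      simp
  · have h3 : i ≠ j := fun h => h1 (by rw [h])
    rw [if_neg h1, if_neg h3]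
    simp

theorem kk_neg (g : SL(2, ℝ)) : kk (-g) = kk g := by
  ext i j
  unfold kk
  rw [Matrix.SpecialLinearGroup.coe_neg, Matrix.neg_apply, Matrix.neg_apply, neg_mul_neg]

theorem trace_kk (g : SL(2, ℝ)) : (kk g).trace = (((tr g) ^ 2 : ℝ) : ℂ) := by
  unfold Matrix.trace
  rw [Fintype.sum_prod_type]
  simp only [Fin.sum_univ_two, Matrix.diag_apply]
  unfold kk tr
  push_cast
  ring

/-- the basis vector -/
def e00 : Fin 2 × Fin 2 → ℂ := Pi.single (0, 0) 1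

/-- the antisymmetric vector -/
def nv : Fin 2 × Fin 2 → ℂ := fun i => if i = (0, 1) then 1 else if i = (1, 0) then -1 else 0

theorem kk_nv (g : SL(2, ℝ)) : kk g *ᵥ nv = nv := by
  have hd := g.2
  rw [Matrix.det_fin_two] at hd
  have hd' : (g.1 0 0 : ℂ) * (g.1 1 1 : ℂ) - (g.1 0 1 : ℂ) * (g.1 1 0 : ℂ) = 1 := by
    exact_mod_cast hd
  ext ⟨i, j⟩
  unfold Matrix.mulVec dotProduct
  rw [Fintype.sum_prod_type]
  simp only [Fin.sum_univ_two]
  unfold nv kk
  fin_cases i <;> fin_cases j <;> simp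
  · ring
  · linear_combination hd'
  · linear_combination -hd'
  · ring

theorem nv_kk (g : SL(2, ℝ)) : nv ᵥ* kk g = nv := by
  have hd := g.2
  rw [Matrix.det_fin_two] at hd
  have hd' : (g.1 0 0 : ℂ) * (g.1 1 1 : ℂ) - (g.1 0 1 : ℂ) * (g.1 1 0 : ℂ) = 1 := by
    exact_mod_cast hd
  ext ⟨i, j⟩
  unfold Matrix.vecMul dotProduct
  rw [Fintype.sum_prod_type]
  simp only [Fin.sum_univ_two]
  unfold nv kk
  fin_cases i <;> fin_cases j <;> simp
  · ring
  · linear_combination hd'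
  · linear_combination -hd'
  · ring

/-- the column -/
def n0 : Matrix (Fin 2 × Fin 2) (Fin 1) ℂ := Matrix.of fun i _ => nv i
/-- the row -/
noncomputable def m0 : Matrix (Fin 1) (Fin 2 × Fin 2) ℂ := Matrix.of fun _ i => nv i / 2

theorem kk_n0 (g : SL(2, ℝ)) : kk g * n0 = n0 := by
  ext i j
  have := congrFun (kk_nv g) i
  exact this

theorem m0_kk (g : SL(2, ℝ)) : m0 * kk g = m0 := by
  ext i j
  have h := congrFun (nv_kk g) j
  have h1 : (m0 * kk g) i j = (nv ᵥ* kk g) j / 2 := by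
    rw [Matrix.mul_apply]
    unfold Matrix.vecMul dotProduct
    rw [Finset.sum_div]
    refine Finset.sum_congr rfl fun k _ => ?_
    unfold m0
    rw [Matrix.of_apply]
    ring
  rw [h1, h]
  rfl

theorem m0_n0 : m0 * n0 = 1 := by
  ext i j
  rw [Matrix.mul_apply, Fintype.sum_prod_type]
  simp only [Fin.sum_univ_two]
  unfold m0 n0 nv
  fin_cases i
  fin_cases j
  norm_num

/-! ### the spectral projection -/

theorem kk_flow (ℓ : ℝ) : kk (flow ℓ) = Matrix.diagonal (fun i : Fin 2 × Fin 2 =>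
    (((if i.1 = 0 then Real.exp (ℓ / 2) else Real.exp (-(ℓ / 2))) *
      (if i.2 = 0 then Real.exp (ℓ / 2) else Real.exp (-(ℓ / 2))) : ℝ) : ℂ)) := by
  ext ⟨i, j⟩ ⟨k, l⟩
  unfold kk flow
  fin_cases i <;> fin_cases j <;> fin_cases k <;> fin_cases l <;> simp [Matrix.diagonal]

theorem c0_sum (lam : ℝ) (z : ℂ) : ∑ i : Fin 4, ((c0 lam i : ℝ) : ℂ) * z ^ (i : ℕ) =
    (z - 1) ^ 2 * (z - (lam : ℂ)⁻¹ ^ 2) /
      (((lam : ℂ) ^ 2 - 1) ^ 2 * ((lam : ℂ) ^ 2 - (lam : ℂ)⁻¹ ^ 2)) := by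
  rw [Fin.sum_univ_four]
  unfold c0
  have h3 : ((3 : Fin 4) : ℕ) = 3 := rfl
  simp only [Matrix.cons_val_zero, Matrix.cons_val_one, Matrix.cons_val, Fin.val_zero,
    Fin.val_one, Fin.val_two, pow_zero, pow_one, h3]
  push_cast
  ring

theorem proj_flow (ℓ : ℝ) (hℓ : 0 < ℓ) : ∑ i : Fin 4,
    ((c0 (Real.exp (ℓ / 2)) i : ℝ) : ℂ) • kk (flow ℓ) ^ (i : ℕ) =
      Matrix.vecMulVec e00 e00 := by
  have hl : 1 < Real.exp (ℓ / 2) := by
    rw [Real.one_lt_exp_iff]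
    positivity
  have hc := c0_sum (Real.exp (ℓ / 2))
  set lam := Real.exp (ℓ / 2) with hlam
  have hinv : Real.exp (-(ℓ / 2)) = lam⁻¹ := by rw [hlam, Real.exp_neg]
  rw [kk_flow, ← hlam, hinv]
  simp only [Matrix.diagonal_pow]
  have h0 : (lam : ℂ) ≠ 0 := by
    rw [Ne, Complex.ofReal_eq_zero]
    positivity
  have h1 : ((lam : ℂ) ^ 2 - 1) ≠ 0 := by
    have : lam ^ 2 - 1 ≠ 0 := by nlinarith
    exact_mod_cast this
  have h2 : ((lam : ℂ) ^ 2 - (lam : ℂ)⁻¹ ^ 2) ≠ 0 := by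
    have h3 : lam⁻¹ < 1 := inv_lt_one_of_one_lt₀ hl
    have h4 : 0 < lam⁻¹ := by positivity
    have : lam ^ 2 - lam⁻¹ ^ 2 ≠ 0 := by nlinarith
    exact_mod_cast this
  have hdiag : ∑ i : Fin 4, ((c0 lam i : ℝ) : ℂ) • Matrix.diagonal
      ((fun i : Fin 2 × Fin 2 => (((if i.1 = 0 then lam else lam⁻¹) *
        (if i.2 = 0 then lam else lam⁻¹) : ℝ) : ℂ)) ^ (i : ℕ)) =
      Matrix.diagonal (fun k : Fin 2 × Fin 2 => ∑ i : Fin 4, ((c0 lam i : ℝ) : ℂ) *
        ((((if k.1 = 0 then lam else lam⁻¹) * (if k.2 = 0 then lam else lam⁻¹) : ℝ) : ℂ)) ^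
          (i : ℕ)) := by
    ext k l
    rw [Matrix.sum_apply]
    by_cases h : k = l
    · subst h
      rw [Matrix.diagonal_apply_eq]
      refine Finset.sum_congr rfl fun i _ => ?_
      rw [Matrix.smul_apply, Matrix.diagonal_apply_eq, smul_eq_mul]
      rfl
    · rw [Matrix.diagonal_apply_ne _ h]
      refine Finset.sum_eq_zero fun i _ => ?_
      rw [Matrix.smul_apply, Matrix.diagonal_apply_ne _ h, smul_zero]
  rw [hdiag]
  simp only [hc]
  have v1 : ((((lam * lam : ℝ) : ℂ)) - 1) ^ 2 * ((((lam * lam : ℝ) : ℂ)) - (lam : ℂ)⁻¹ ^ 2) /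
      (((lam : ℂ) ^ 2 - 1) ^ 2 * ((lam : ℂ) ^ 2 - (lam : ℂ)⁻¹ ^ 2)) = 1 := by
    have e : ((lam * lam : ℝ) : ℂ) = (lam : ℂ) ^ 2 := by push_cast; ring
    rw [e]
    exact div_self (mul_ne_zero (pow_ne_zero 2 h1) h2)
  have e1 : ((lam * lam⁻¹ : ℝ) : ℂ) = 1 := by
    push_cast
    exact mul_inv_cancel₀ h0
  have e2 : ((lam⁻¹ * lam : ℝ) : ℂ) = 1 := by
    push_cast
    exact inv_mul_cancel₀ h0
  have e3 : ((lam⁻¹ * lam⁻¹ : ℝ) : ℂ) = (lam : ℂ)⁻¹ ^ 2 := by
    push_cast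
    ring
  ext k l
  rw [Matrix.vecMulVec_apply]
  by_cases hkl : k = l
  · subst hkl
    rw [Matrix.diagonal_apply_eq]
    obtain ⟨i, j⟩ := k
    unfold e00
    fin_cases i <;> fin_cases j
    · simpa using v1
    · simp only [Fin.zero_eta, Fin.mk_one, if_true, Fin.isValue, one_ne_zero, if_false, e1]
      simp
    · simp only [Fin.zero_eta, Fin.mk_one, if_true, Fin.isValue, one_ne_zero, if_false, e2]
      simp
    · simp only [Fin.mk_one, Fin.isValue, one_ne_zero, if_false, e3]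
      simp
  · rw [Matrix.diagonal_apply_ne _ hkl]
    unfold e00
    rw [Pi.single_apply, Pi.single_apply]
    by_cases h3 : k = (0, 0)
    · rw [if_neg (show l ≠ (0, 0) from fun h4 => hkl (h3.trans h4.symm)), mul_zero]
    · rw [if_neg h3, zero_mul]

end Pool.Agent.Q151.SA
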